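import Pool.Agent.H20.Morse.Defs

/-! Chord words for right-angled Coxeter groups (MP_b587bd_al, module E, helper14). -/

set_option autoImplicit false

namespace Pool.Agent.H14.Morse

open Pool.Agent.H20.Morse List

variable {X : Type}

/-- A list of ids, each occurring twice, such that crossing ids have `A`-related labels. -/
structure Chord (A : X → X → Prop) (lam : ℕ → X) (c : List ℕ) : Prop where
  cnt : ∀ i ∈ c, c.count i = 2
  cross : ∀ i j, i ≠ j → [i, j, i, j] <+ c → A (lam i) (lam j)

variable {A : X → X → Prop} {lam : ℕ → X} {c : List ℕ}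

theorem Chord.filter (h : Chord A lam c) (p : ℕ → Bool) : Chord A lam (c.filter p) := by
  refine ⟨fun i hi => ?_, fun i j hij hs => h.cross i j hij (hs.trans filter_sublist)⟩
  obtain ⟨h1, h2⟩ := List.mem_filter.mp hi
  rw [List.count_filter h2]
  exact h.cnt i h1

theorem exists_split {c : List ℕ} (h : ¬ c.Nodup) :
    ∃ (a : List ℕ) (i : ℕ) (b d : List ℕ), c = a ++ i :: b ++ i :: d ∧ (a ++ i :: b).Nodup := by
  induction c using List.reverseRecOn with
  | nil => simp at h
  | append_singleton c x ih =>
    by_cases hc : c.Nodup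
    · have hx : x ∈ c := by
        by_contra hx
        apply h
        rw [List.nodup_append]
        refine ⟨hc, by simp, ?_⟩
        intro a ha b hb
        simp only [List.mem_singleton] at hb
        rintro rfl
        exact hx (hb ▸ ha)
      obtain ⟨a, b, rfl⟩ := List.append_of_mem hx
      exact ⟨a, x, b, [], by simp, hc⟩
    · obtain ⟨a, i, b, d, rfl, hn⟩ := ih hc
      exact ⟨a, i, b, d ++ [x], by simp, hn⟩

/-- The product of a chord word is `1`. -/
theorem Chord.prod :
    ∀ (n : ℕ) {c : List ℕ}, c.length ≤ n → Chord A lam c →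
      (c.map (fun i => Racg.lamp A (lam i))).prod = 1 := by
  intro n
  induction n with
  | zero =>
    intro c hc _
    have : c = [] := List.length_eq_zero_iff.mp (by omega)
    subst this
    rfl
  | succ n ih =>
    intro c hc h
    rcases c.eq_nil_or_concat with rfl | ⟨c', x, hcx⟩
    · rfl
    have hnd : ¬ c.Nodup := by
      intro hnd
      have hx : x ∈ c := by rw [hcx]; simp
      have h1 := h.cnt x hx
      have h2 := List.nodup_iff_count_le_one.mp hnd x
      omega
    obtain ⟨a, i, b, d, rfl, hab⟩ := exists_split hnd
    have hcount := h.cnt i (by simp)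
    simp only [List.count_append, List.count_cons_self] at hcount
    have hia : i ∉ a := by
      rw [← List.count_eq_zero]; omega
    have hib : i ∉ b := by
      rw [← List.count_eq_zero]; omega
    have hid : i ∉ d := by
      rw [← List.count_eq_zero]; omega
    have hfilter : (a ++ i :: b ++ i :: d).filter (fun t => decide (t ≠ i)) = a ++ b ++ d := by
      have hf : ∀ l : List ℕ, i ∉ l → l.filter (fun t => decide (t ≠ i)) = l := by
        intro l hl
        rw [List.filter_eq_self]
        intro t ht
        simp only [ne_eq, decide_eq_true_eq]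
        rintro rfl
        exact hl ht
      simp only [List.filter_append, List.filter_cons, hf a hia, hf b hib, hf d hid]
      simp
    have h1 := h.filter (fun t => decide (t ≠ i))
    rw [hfilter] at h1
    have h2 := ih (c := a ++ b ++ d) (by simp at hc ⊢; omega) h1
    have hcomm : ∀ l : List ℕ, (∀ j ∈ l, A (lam i) (lam j)) →
        Racg.lamp A (lam i) * (l.map (fun i => Racg.lamp A (lam i))).prod =
          (l.map (fun i => Racg.lamp A (lam i))).prod * Racg.lamp A (lam i) := by
      intro l
      induction l with
      | nil => intro _; simp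
      | cons j l ihl =>
        intro hl
        rw [List.map_cons, List.prod_cons, ← mul_assoc,
          Racg.lamp_comm (hl j (by simp)), mul_assoc, ihl (fun t ht => hl t (by simp [ht])),
          mul_assoc]
    have hb : ∀ j ∈ b, A (lam i) (lam j) := by
      intro j hj
      have hij : i ≠ j := by rintro rfl; exact hib hj
      apply h.cross i j hij
      have hjd : j ∈ d := by
        have h3 := h.cnt j (by simp [hj])
        have h4 := List.nodup_iff_count_le_one.mp hab j
        simp only [List.count_append, List.count_cons, beq_iff_eq, hij, if_false] at h3 h4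
        rw [← List.count_pos_iff]
        omega
      have e1 : [i, j] <+ i :: b := (List.singleton_sublist.mpr hj).cons_cons i
      have e2 : [i, j] <+ i :: d := (List.singleton_sublist.mpr hjd).cons_cons i
      have e3 : [i, j] <+ a ++ i :: b := e1.trans (List.sublist_append_right _ _)
      exact e3.append e2
    rw [List.map_append, List.map_append, List.prod_append, List.prod_append, List.map_cons,
      List.map_cons, List.prod_cons, List.prod_cons]
    rw [List.map_append, List.map_append, List.prod_append, List.prod_append] at h2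
    rw [hcomm b hb, ← h2]
    have h5 := Racg.lamp_sq (A := A) (lam i)
    calc (a.map (fun i => Racg.lamp A (lam i))).prod *
          ((b.map (fun i => Racg.lamp A (lam i))).prod * Racg.lamp A (lam i)) *
          (Racg.lamp A (lam i) * (d.map (fun i => Racg.lamp A (lam i))).prod) =
          (a.map (fun i => Racg.lamp A (lam i))).prod *
          ((b.map (fun i => Racg.lamp A (lam i))).prod * (Racg.lamp A (lam i) *
          Racg.lamp A (lam i))) * (d.map (fun i => Racg.lamp A (lam i))).prod := by
            simp only [mul_assoc]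
      _ = _ := by rw [h5, mul_one]

/-- The words which are chord words. -/
def P (A : X → X → Prop) (w : List X) : Prop :=
  ∃ (c : List ℕ) (lam : ℕ → X), Chord A lam c ∧ c.map lam = w

theorem P_insert {a b : List X} {x : X} (h : P A (a ++ b)) : P A (a ++ [x, x] ++ b) := by
  obtain ⟨c, lam, hc, hw⟩ := h
  obtain ⟨ca, cb, rfl, rfl, rfl⟩ := List.map_eq_append_iff.mp hw
  -- a fresh id
  obtain ⟨N, hN⟩ : ∃ N : ℕ, ∀ i ∈ ca ++ cb, i ≠ N := by
    obtain ⟨N, hN⟩ := Infinite.exists_notMem_finset (ca ++ cb).toFinset
    refine ⟨N, fun i hi h => hN ?_⟩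
    rw [List.mem_toFinset, ← h]
    exact hi
  have hNa : N ∉ ca := fun h => hN N (by simp [h]) rfl
  have hNb : N ∉ cb := fun h => hN N (by simp [h]) rfl
  have key : ∀ j, j ≠ N → ¬ [N, j, N] <+ ca ++ [N, N] ++ cb := by
    intro j hj h
    rw [List.append_assoc, List.sublist_append_iff] at h
    obtain ⟨l1, l2, h1, h2, h3⟩ := h
    have hl1 : l1 = [] := by
      rcases l1 with _ | ⟨t, l1⟩
      · rfl
      · simp only [List.cons_append, List.cons.injEq] at h1
        exact absurd (h2.subset (by simp [h1.1])) hNa
    subst hl1
    rw [List.nil_append] at h1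
    subst h1
    have h4 : [j, N] <+ N :: cb := by
      rcases List.sublist_cons_iff.mp h3 with h | ⟨r, hr, h⟩
      · rcases List.sublist_cons_iff.mp h with h | ⟨r, hr, h⟩
        · exact absurd (h.subset (by simp)) hNb
        · simp only [List.cons.injEq, true_and] at hr
          subst hr
          exact h.cons _
      · simp only [List.cons.injEq, true_and] at hr
        subst hr
        exact h
    rcases List.sublist_cons_iff.mp h4 with h | ⟨r, hr, h⟩
    · exact absurd (h.subset (by simp)) hNb
    · simp only [List.cons.injEq] at hr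
      exact hj hr.1
  refine ⟨ca ++ [N, N] ++ cb, Function.update lam N x, ⟨?_, ?_⟩, ?_⟩
  · intro i hi
    by_cases hiN : i = N
    · subst hiN
      simp only [List.count_append, List.count_eq_zero.mpr hNa, List.count_eq_zero.mpr hNb]
      simp
    · have h1 : i ∈ ca ++ cb := by
        simp only [List.mem_append, List.mem_cons, List.not_mem_nil, or_false, hiN, or_self] at hi ⊢
        exact hi
      have h2 := hc.cnt i h1
      simp only [List.count_append] at h2 ⊢
      have h3 : [N, N].count i = 0 := by
        rw [List.count_eq_zero]; simp [hiN]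
      omega
  · intro i j hij hs
    by_cases hiN : i = N
    · exfalso
      subst hiN
      apply key j (Ne.symm hij)
      exact (List.Sublist.trans (by simp) hs : [i, j, i] <+ _)
    by_cases hjN : j = N
    · exfalso
      subst hjN
      apply key i hij
      exact (List.Sublist.trans (by simp) hs : [j, i, j] <+ _)
    rw [Function.update_of_ne hiN, Function.update_of_ne hjN]
    apply hc.cross i j hij
    have h1 := hs.filter (fun t => decide (t ≠ N))
    have hf : ∀ l : List ℕ, N ∉ l → l.filter (fun t => decide (t ≠ N)) = l := by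
      intro l hl
      rw [List.filter_eq_self]
      intro t ht
      simp only [ne_eq, decide_eq_true_eq]
      rintro rfl
      exact hl ht
    rw [List.filter_append, List.filter_append, hf ca hNa, hf cb hNb] at h1
    have h2 : [i, j, i, j].filter (fun t => decide (t ≠ N)) = [i, j, i, j] := by
      simp [hiN, hjN]
    have h3 : [N, N].filter (fun t => decide (t ≠ N)) = [] := by simp
    rw [h2, h3, List.append_nil] at h1
    exact h1
  · have h1 : ∀ l : List ℕ, N ∉ l → l.map (Function.update lam N x) = l.map lam := by
      intro l hl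
      apply List.map_congr_left
      intro t ht
      rw [Function.update_of_ne]
      rintro rfl
      exact hl ht
    rw [List.map_append, List.map_append, h1 ca hNa, h1 cb hNb]
    simp

theorem P_swap {a b : List X} {x y : X} (hxy : A x y) (hyx : A y x)
    (h : P A (a ++ [x, y] ++ b)) : P A (a ++ [y, x] ++ b) := by
  obtain ⟨c, lam, hc, hw⟩ := h
  obtain ⟨c1, cb, rfl, h1, rfl⟩ := List.map_eq_append_iff.mp hw
  obtain ⟨ca, cm, rfl, rfl, h2⟩ := List.map_eq_append_iff.mp h1
  obtain ⟨i, c2, rfl, rfl, h3⟩ := List.map_eq_cons_iff.mp h2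
  obtain ⟨j, c3, rfl, rfl, h4⟩ := List.map_eq_cons_iff.mp h3
  have h5 : c3 = [] := List.map_eq_nil_iff.mp h4
  subst h5
  refine ⟨ca ++ [j, i] ++ cb, lam, ⟨?_, ?_⟩, by simp⟩
  · intro t ht
    have hperm : (ca ++ [j, i] ++ cb).Perm (ca ++ [i, j] ++ cb) :=
      ((List.Perm.swap i j []).append_left ca).append_right cb
    rw [hperm.count_eq]
    exact hc.cnt t (hperm.mem_iff.mp ht)
  · intro p q hpq hs
    by_cases hj : j = p ∨ j = q
    · by_cases hi : i = p ∨ i = q
      · by_cases hij : i = j
        · subst hij
          exact hc.cross p q hpq hs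
        · rcases hi with rfl | rfl
          · rcases hj with rfl | rfl
            · exact absurd rfl hij
            · exact hxy
          · rcases hj with rfl | rfl
            · exact hyx
            · exact absurd rfl hij
      · push Not at hi
        apply hc.cross p q hpq
        have h6 := hs.filter (fun t => decide (t ≠ i))
        have h7 : [p, q, p, q].filter (fun t => decide (t ≠ i)) = [p, q, p, q] := by
          simp [Ne.symm hi.1, Ne.symm hi.2]
        have h8 : (ca ++ [j, i] ++ cb).filter (fun t => decide (t ≠ i)) =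
            (ca ++ [i, j] ++ cb).filter (fun t => decide (t ≠ i)) := by
          simp [List.filter_append, List.filter_cons]
        rw [h7, h8] at h6
        exact h6.trans filter_sublist
    · push Not at hj
      apply hc.cross p q hpq
      have h6 := hs.filter (fun t => decide (t ≠ j))
      have h7 : [p, q, p, q].filter (fun t => decide (t ≠ j)) = [p, q, p, q] := by
        simp [Ne.symm hj.1, Ne.symm hj.2]
      have h8 : (ca ++ [j, i] ++ cb).filter (fun t => decide (t ≠ j)) =
          (ca ++ [i, j] ++ cb).filter (fun t => decide (t ≠ j)) := by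
        simp [List.filter_append, List.filter_cons]
      rw [h7, h8] at h6
      exact h6.trans filter_sublist

/-- Insertion of two ids `i, j` into `[i, q, j, q]`. -/
theorem pattern {ca cb : List ℕ} {i j q : ℕ} (h : [i, q, j, q] <+ ca ++ cb) :
    [i, q, i, q] <+ ca ++ [i, j] ++ cb ∨ [j, q, j, q] <+ ca ++ [i, j] ++ cb ∨
      [q, i, q, i] <+ ca ++ [i, j] ++ cb ∨ [q, j, q, j] <+ ca ++ [i, j] ++ cb := by
  obtain ⟨l1, l2, h1, h2, h3⟩ := List.sublist_append_iff.mp h
  have h4 : l1 ++ [i, j] ++ l2 <+ ca ++ [i, j] ++ cb := (h2.append_right _).append h3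
  let f : ℕ → ℕ := fun t => if t = 0 then i else if t = 1 then j else q
  rcases l1 with _ | ⟨a1, _ | ⟨a2, _ | ⟨a3, _ | ⟨a4, l1⟩⟩⟩⟩
  · simp only [List.nil_append] at h1 h4
    subst h1
    right; left
    exact (((by decide : [1, 2, 1, 2] <+ [0, 1, 0, 2, 1, 2]).map f).trans h4)
  · simp only [List.cons_append, List.nil_append, List.cons.injEq] at h1 h4
    obtain ⟨rfl, rfl⟩ := h1
    right; left
    exact (((by decide : [1, 2, 1, 2] <+ [0, 0, 1, 2, 1, 2]).map f).trans h4)
  · simp only [List.cons_append, List.nil_append, List.cons.injEq] at h1 h4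
    obtain ⟨rfl, rfl, rfl⟩ := h1
    left
    exact (((by decide : [0, 2, 0, 2] <+ [0, 2, 0, 1, 1, 2]).map f).trans h4)
  · simp only [List.cons_append, List.nil_append, List.cons.injEq] at h1 h4
    obtain ⟨rfl, rfl, rfl, rfl⟩ := h1
    left
    exact (((by decide : [0, 2, 0, 2] <+ [0, 2, 1, 0, 1, 2]).map f).trans h4)
  · simp only [List.cons_append, List.cons.injEq] at h1 h4
    obtain ⟨rfl, rfl, rfl, rfl, h5⟩ := h1
    have h6 : l1 = [] := (List.append_eq_nil_iff.mp h5.symm).1
    have h7 : l2 = [] := (List.append_eq_nil_iff.mp h5.symm).2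
    subst h6 h7
    right; right; right
    exact (((by decide : [2, 1, 2, 1] <+ [0, 2, 1, 2, 0, 1]).map f).trans h4)

/-- Insertion of two ids `i, j` into `[j, q, i, q]`. -/
theorem pattern' {ca cb : List ℕ} {i j q : ℕ} (h : [j, q, i, q] <+ ca ++ cb) :
    [i, q, i, q] <+ ca ++ [i, j] ++ cb ∨ [j, q, j, q] <+ ca ++ [i, j] ++ cb ∨
      [q, i, q, i] <+ ca ++ [i, j] ++ cb ∨ [q, j, q, j] <+ ca ++ [i, j] ++ cb := by
  obtain ⟨l1, l2, h1, h2, h3⟩ := List.sublist_append_iff.mp h
  have h4 : l1 ++ [i, j] ++ l2 <+ ca ++ [i, j] ++ cb := (h2.append_right _).append h3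
  let f : ℕ → ℕ := fun t => if t = 0 then i else if t = 1 then j else q
  rcases l1 with _ | ⟨a1, _ | ⟨a2, _ | ⟨a3, _ | ⟨a4, l1⟩⟩⟩⟩
  · simp only [List.nil_append] at h1 h4
    subst h1
    left
    exact (((by decide : [0, 2, 0, 2] <+ [0, 1, 1, 2, 0, 2]).map f).trans h4)
  · simp only [List.cons_append, List.nil_append, List.cons.injEq] at h1 h4
    obtain ⟨rfl, rfl⟩ := h1
    left
    exact (((by decide : [0, 2, 0, 2] <+ [1, 0, 1, 2, 0, 2]).map f).trans h4)
  · simp only [List.cons_append, List.nil_append, List.cons.injEq] at h1 h4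
    obtain ⟨rfl, rfl, rfl⟩ := h1
    right; left
    exact (((by decide : [1, 2, 1, 2] <+ [1, 2, 0, 1, 0, 2]).map f).trans h4)
  · simp only [List.cons_append, List.nil_append, List.cons.injEq] at h1 h4
    obtain ⟨rfl, rfl, rfl, rfl⟩ := h1
    right; left
    exact (((by decide : [1, 2, 1, 2] <+ [1, 2, 0, 0, 1, 2]).map f).trans h4)
  · simp only [List.cons_append, List.cons.injEq] at h1 h4
    obtain ⟨rfl, rfl, rfl, rfl, h5⟩ := h1
    have h6 : l1 = [] := (List.append_eq_nil_iff.mp h5.symm).1
    have h7 : l2 = [] := (List.append_eq_nil_iff.mp h5.symm).2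
    subst h6 h7
    right; right; left
    exact (((by decide : [2, 0, 2, 0] <+ [1, 2, 0, 2, 0, 1]).map f).trans h4)

theorem four {l : List ℕ} {ρ : ℕ → ℕ} {s1 s2 s3 s4 : ℕ} (h : [s1, s2, s3, s4] <+ l.map ρ) :
    ∃ a1 a2 a3 a4, [a1, a2, a3, a4] <+ l ∧ ρ a1 = s1 ∧ ρ a2 = s2 ∧ ρ a3 = s3 ∧ ρ a4 = s4 := by
  obtain ⟨l', hl', hl⟩ := List.sublist_map_iff.mp h
  rcases l' with _ | ⟨a1, _ | ⟨a2, _ | ⟨a3, _ | ⟨a4, _ | ⟨a5, l'⟩⟩⟩⟩⟩ <;>
    simp only [List.map_nil, List.map_cons, List.cons.injEq, reduceCtorEq, and_false,
      and_true] at hl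
  exact ⟨a1, a2, a3, a4, hl', hl.1.symm, hl.2.1.symm, hl.2.2.1.symm, hl.2.2.2.symm⟩

theorem P_delete (hA : ∀ x y, A x y → A y x) {a b : List X} {x : X}
    (h : P A (a ++ [x, x] ++ b)) : P A (a ++ b) := by
  obtain ⟨c, lam, hc, hw⟩ := h
  obtain ⟨c1, cb, rfl, h1, rfl⟩ := List.map_eq_append_iff.mp hw
  obtain ⟨ca, cm, rfl, rfl, h2⟩ := List.map_eq_append_iff.mp h1
  obtain ⟨i, c2, rfl, hi, h3⟩ := List.map_eq_cons_iff.mp h2
  obtain ⟨j, c3, rfl, hj, h4⟩ := List.map_eq_cons_iff.mp h3
  have h5 : c3 = [] := List.map_eq_nil_iff.mp h4
  subst h5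
  by_cases hij : i = j
  · subst hij
    have hcount := hc.cnt i (by simp)
    simp only [List.count_append, List.count_cons_self, List.count_nil] at hcount
    have hia : i ∉ ca := by
      rw [← List.count_eq_zero]; omega
    have hib : i ∉ cb := by
      rw [← List.count_eq_zero]; omega
    have hf : ∀ l : List ℕ, i ∉ l → l.filter (fun t => decide (t ≠ i)) = l := by
      intro l hl
      rw [List.filter_eq_self]
      intro t ht
      simp only [ne_eq, decide_eq_true_eq]
      rintro rfl
      exact hl ht
    have h6 := hc.filter (fun t => decide (t ≠ i))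
    have h7 : (ca ++ [i, i] ++ cb).filter (fun t => decide (t ≠ i)) = ca ++ cb := by
      rw [List.filter_append, List.filter_append, hf ca hia, hf cb hib]
      simp
    rw [h7] at h6
    exact ⟨ca ++ cb, lam, h6, by simp⟩
  · -- rename `j` to `i`
    let ρ : ℕ → ℕ := fun t => if t = j then i else t
    have hρj : ρ j = i := by simp [ρ]
    have hρn : ∀ t, t ≠ j → ρ t = t := fun t ht => by simp [ρ, ht]
    have hρ : ∀ t, lam (ρ t) = lam t := by
      intro t
      by_cases ht : t = j
      · rw [ht, hρj, hi, hj]
      · rw [hρn t ht]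
    have hci := hc.cnt i (by simp)
    have hcj := hc.cnt j (by simp)
    simp only [List.count_append, List.count_cons, List.count_nil, beq_iff_eq, hij, Ne.symm hij,
      if_true, if_false] at hci hcj
    have hcount : ∀ (l : List ℕ), (l.map ρ).count i = l.count i + l.count j := by
      intro l
      induction l with
      | nil => simp
      | cons t l ihl =>
        rw [List.map_cons, List.count_cons, List.count_cons, List.count_cons, ihl]
        by_cases ht : t = j
        · subst ht
          simp [ρ, Ne.symm hij]
          omega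
        · simp [ρ, ht]
          omega
    have hcount' : ∀ (u : ℕ), u ≠ i → u ≠ j → ∀ (l : List ℕ), (l.map ρ).count u = l.count u := by
      intro u hui huj l
      induction l with
      | nil => simp
      | cons t l ihl =>
        rw [List.map_cons, List.count_cons, List.count_cons, ihl]
        by_cases ht : t = j
        · subst ht
          simp [ρ, Ne.symm hui, Ne.symm huj]
        · simp [ρ, ht]
    have hneg : ∀ (l : List ℕ), j ∉ l.map ρ := by
      intro l hl
      obtain ⟨t, -, ht⟩ := List.mem_map.mp hl
      by_cases h : t = j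
      · rw [h, hρj] at ht
        exact hij ht
      · rw [hρn t h] at ht
        exact h ht
    have hq : ∀ q, q ≠ i → ∀ t, ρ t = q → t = q := by
      intro q hqi t ht
      by_cases h : t = j
      · rw [h, hρj] at ht
        exact absurd ht.symm hqi
      · rwa [hρn t h] at ht
    have hii : ∀ t, ρ t = i → t = i ∨ t = j := by
      intro t ht
      by_cases h : t = j
      · right; exact h
      · rw [hρn t h] at ht
        left; exact ht
    have hlam : lam i = lam j := by rw [hi, hj]
    have fin : ∀ q, q ≠ i → q ≠ j →
        ([i, q, i, q] <+ ca ++ [i, j] ++ cb ∨ [j, q, j, q] <+ ca ++ [i, j] ++ cb ∨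
        [q, i, q, i] <+ ca ++ [i, j] ++ cb ∨ [q, j, q, j] <+ ca ++ [i, j] ++ cb) →
        A (lam i) (lam q) := by
      rintro q hqi hqj (h | h | h | h)
      · exact hc.cross i q (Ne.symm hqi) h
      · rw [hlam]; exact hc.cross j q (Ne.symm hqj) h
      · exact hA _ _ (hc.cross q i hqi h)
      · rw [hlam]; exact hA _ _ (hc.cross q j hqj h)
    have hcnt_i : (ca ++ cb).count i = 1 := by rw [List.count_append]; omega
    have hcnt_j : (ca ++ cb).count j = 1 := by rw [List.count_append]; omega
    have no2 : ∀ u q, (ca ++ cb).count u = 1 → ¬ [u, q, u, q] <+ ca ++ cb := by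
      intro u q hu h
      have h6 := h.count_le u
      simp only [List.count_cons, List.count_nil, beq_iff_eq, if_true] at h6
      omega
    have no2' : ∀ u q, (ca ++ cb).count u = 1 → ¬ [q, u, q, u] <+ ca ++ cb := by
      intro u q hu h
      have h6 := h.count_le u
      simp only [List.count_cons, List.count_nil, beq_iff_eq, if_true] at h6
      omega
    -- the crossings of the new id
    have key : ∀ q, q ≠ i → q ≠ j → [i, q, i, q] <+ (ca ++ cb).map ρ → A (lam i) (lam q) := by
      intro q hqi hqj hs
      obtain ⟨a1, a2, a3, a4, hl', e1, e2, e3, e4⟩ := four hs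
      rw [hq q hqi a2 e2, hq q hqi a4 e4] at hl'
      rcases hii a1 e1 with h6 | h6
      · rcases hii a3 e3 with h7 | h7
        · rw [h6, h7] at hl'
          exact absurd hl' (no2 i q hcnt_i)
        · rw [h6, h7] at hl'
          exact fin q hqi hqj (pattern hl')
      · rcases hii a3 e3 with h7 | h7
        · rw [h6, h7] at hl'
          exact fin q hqi hqj (pattern' hl')
        · rw [h6, h7] at hl'
          exact absurd hl' (no2 j q hcnt_j)
    have key' : ∀ q, q ≠ i → q ≠ j → [q, i, q, i] <+ (ca ++ cb).map ρ → A (lam i) (lam q) := by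
      intro q hqi hqj hs
      obtain ⟨a1, a2, a3, a4, hl', e1, e2, e3, e4⟩ := four hs
      rw [hq q hqi a1 e1, hq q hqi a3 e3] at hl'
      have rev : ∀ s : List ℕ, s <+ cb.reverse ++ [j, i] ++ ca.reverse →
          s.reverse <+ ca ++ [i, j] ++ cb := by
        intro s hs
        have h6 := hs.reverse
        simpa using h6
      rcases hii a2 e2 with h6 | h6
      · rcases hii a4 e4 with h7 | h7
        · rw [h6, h7] at hl'
          exact absurd hl' (no2' i q hcnt_i)
        · rw [h6, h7] at hl'
          have h8 := hl'.reverse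
          simp only [List.reverse_append, List.reverse_cons, List.reverse_nil, List.nil_append,
            List.cons_append] at h8
          rcases pattern h8 with h | h | h | h
          · exact fin q hqi hqj (Or.inr (Or.inr (Or.inr (rev _ h))))
          · exact fin q hqi hqj (Or.inr (Or.inr (Or.inl (rev _ h))))
          · exact fin q hqi hqj (Or.inr (Or.inl (rev _ h)))
          · exact fin q hqi hqj (Or.inl (rev _ h))
      · rcases hii a4 e4 with h7 | h7
        · rw [h6, h7] at hl'
          have h8 := hl'.reverse
          simp only [List.reverse_append, List.reverse_cons, List.reverse_nil, List.nil_append,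
            List.cons_append] at h8
          rcases pattern' h8 with h | h | h | h
          · exact fin q hqi hqj (Or.inr (Or.inr (Or.inr (rev _ h))))
          · exact fin q hqi hqj (Or.inr (Or.inr (Or.inl (rev _ h))))
          · exact fin q hqi hqj (Or.inr (Or.inl (rev _ h)))
          · exact fin q hqi hqj (Or.inl (rev _ h))
        · rw [h6, h7] at hl'
          exact absurd hl' (no2' j q hcnt_j)
    refine ⟨(ca ++ cb).map ρ, lam, ⟨?_, ?_⟩, ?_⟩
    · intro u hu
      by_cases huj : u = j
      · subst huj
        exact absurd hu (hneg _)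
      by_cases hui : u = i
      · subst hui
        rw [hcount, List.count_append, List.count_append]
        omega
      · rw [hcount' u hui huj]
        have h6 : u ∈ ca ++ cb := by
          rw [← List.count_pos_iff, ← hcount' u hui huj, List.count_pos_iff]
          exact hu
        have h7 := hc.cnt u (by simp only [List.mem_append] at h6 ⊢; tauto)
        simp only [List.count_append, List.count_cons, List.count_nil, beq_iff_eq,
          Ne.symm huj, Ne.symm hui, if_false] at h7 ⊢
        omega
    · intro p q hpq hs
      have hpj : p ≠ j := by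
        rintro rfl
        exact hneg _ (hs.subset (by simp))
      have hqj : q ≠ j := by
        rintro rfl
        exact hneg _ (hs.subset (by simp))
      by_cases hpi : p = i
      · subst hpi
        exact key q (Ne.symm hpq) hqj hs
      by_cases hqi : q = i
      · subst hqi
        exact hA _ _ (key' p hpi hpj hs)
      · obtain ⟨a1, a2, a3, a4, hl', e1, e2, e3, e4⟩ := four hs
        rw [hq p hpi a1 e1, hq q hqi a2 e2, hq p hpi a3 e3, hq q hqi a4 e4] at hl'
        apply hc.cross p q hpq
        refine hl'.trans ?_
        rw [List.append_assoc]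
        exact (List.Sublist.refl ca).append (List.sublist_append_right _ _)
    · rw [List.map_map]
      have h6 : lam ∘ ρ = lam := funext hρ
      rw [h6, List.map_append]

/-- The congruence. -/
def rcon (A : X → X → Prop) : Con (FreeMonoid X) where
  r u v := ∀ a b : List X, P A (a ++ FreeMonoid.toList u ++ b) ↔ P A (a ++ FreeMonoid.toList v ++ b)
  iseqv := ⟨fun _ _ _ => Iff.rfl, fun h a b => (h a b).symm, fun h h' a b => (h a b).trans (h' a b)⟩
  mul' := by
    intro u1 v1 u2 v2 h1 h2 a b
    rw [FreeMonoid.toList_mul, FreeMonoid.toList_mul]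
    have e1 := h1 a (FreeMonoid.toList u2 ++ b)
    have e2 := h2 (a ++ FreeMonoid.toList v1) b
    simp only [List.append_assoc] at e1 e2 ⊢
    exact e1.trans e2

theorem prod_eq_mk (w : List X) : (w.map (Racg.lamp A)).prod =
    (PresentedMonoid.mk (RRel A) (FreeMonoid.ofList w) : Racg A) := by
  induction w with
  | nil => rfl
  | cons x w ih =>
    rw [List.map_cons, List.prod_cons, ih]
    rfl

theorem P_of_prod_eq_one [Nonempty X] (hA : ∀ x y, A x y → A y x) {w : List X}
    (h : (w.map (Racg.lamp A)).prod = 1) : P A w := by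
  have h1 : (PresentedMonoid.mk (RRel A) (FreeMonoid.ofList w)) =
      PresentedMonoid.mk (RRel A) 1 := by
    rw [← prod_eq_mk]
    exact h
  have h2 : conGen (RRel A) (FreeMonoid.ofList w) 1 := PresentedMonoid.mk_eq_mk_iff.mp h1
  have h3 : conGen (RRel A) ≤ rcon A := by
    rw [Con.conGen_le]
    intro u v huv
    cases huv with
    | sq x =>
      intro a b
      constructor
      · intro hp
        have := P_delete hA (a := a) (b := b) (x := x) hp
        simpa using this
      · intro hp
        have hp' : P A (a ++ b) := by simpa using hp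
        exact P_insert hp'
    | comm x y hxy =>
      intro a b
      exact ⟨fun hp => P_swap hxy (hA _ _ hxy) hp, fun hp => P_swap (hA _ _ hxy) hxy hp⟩
  have h4 := h3 h2 [] []
  have h5 : P A ([] : List X) :=
    ⟨[], fun _ => Classical.arbitrary X, ⟨by simp, fun i j _ hs => by simp at hs⟩, rfl⟩
  simpa using h4.mpr (by simpa using h5)

end Pool.Agent.H14.Morse
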