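import Pool.Agent.H14.Morse.Chord

/-! Module E of MP_b587bd_al (helper14). -/

set_option autoImplicit false

namespace Pool.Agent.H14.Morse

open Pool.Agent.H20.Morse List

theorem pair_sublist {α : Type} {l : List α} {a b : ℕ} (hab : a < b) (hb : b < l.length) :
    [l[a], l[b]] <+ l := by
  have h1 : [l[a]] <+ l.take (a + 1) := by
    rw [List.singleton_sublist, List.mem_take_iff_getElem]
    exact ⟨a, by omega, rfl⟩
  have h2 : [l[b]] <+ l.drop (a + 1) := by
    rw [List.singleton_sublist, List.mem_drop_iff_getElem]
    exact ⟨b - (a + 1), by omega, by congr 1; omega⟩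
  have h3 := h1.append h2
  rwa [List.take_append_drop] at h3

theorem triple_sublist {α : Type} {l : List α} {a b c : ℕ} (hab : a < b) (hbc : b < c)
    (hc : c < l.length) : [l[a], l[b], l[c]] <+ l := by
  have h1 : [l[a]] <+ l.take (a + 1) := by
    rw [List.singleton_sublist, List.mem_take_iff_getElem]
    exact ⟨a, by omega, rfl⟩
  have h2 : [l[b], l[c]] <+ l.drop (a + 1) := by
    have h := pair_sublist (l := l.drop (a + 1)) (a := b - (a + 1)) (b := c - (a + 1))
      (by omega) (by rw [List.length_drop]; omega)
    simp only [List.getElem_drop] at h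
    have e1 : a + 1 + (b - (a + 1)) = b := by omega
    have e2 : a + 1 + (c - (a + 1)) = c := by omega
    simpa only [e1, e2] using h
  have h3 := h1.append h2
  rwa [List.take_append_drop] at h3

theorem index_unique {l : List ℕ} {x a b : ℕ} (h : l.count x = 1) (ha : a < l.length)
    (hb : b < l.length) (hax : l[a] = x) (hbx : l[b] = x) : a = b := by
  by_contra hne
  rcases Nat.lt_or_gt_of_ne hne with hab | hab
  · have h1 := (pair_sublist hab hb).count_le x
    rw [hax, hbx] at h1
    simp at h1
    omega
  · have h1 := (pair_sublist hab ha).count_le x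
    rw [hax, hbx] at h1
    simp at h1
    omega

theorem targetE : TargetE := by
  intro X A hA ws n Y hinj hnadj hprod
  have : Nonempty X := ⟨Y 0⟩
  have h1 : ((ws ++ ((List.range n).reverse).map Y).map (Racg.lamp A)).prod = 1 := by
    rw [List.map_append, List.prod_append, hprod, List.map_reverse, Racg.prod_reverse,
      List.map_map]
    exact mul_inv_cancel _
  obtain ⟨c, lam, hc, hw⟩ := P_of_prod_eq_one hA h1
  obtain ⟨c1, c2, rfl, hc1, hc2⟩ := List.map_eq_append_iff.mp hw
  -- the ids of the `Y l`
  have hlen2 : c2.length = n := by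
    have := congrArg List.length hc2
    simpa using this
  let d : ℕ → ℕ := fun l => c2.getD (n - 1 - l) 0
  have hd : ∀ l < n, ∃ h : n - 1 - l < c2.length, d l = c2[n - 1 - l] := by
    intro l hl
    have h : n - 1 - l < c2.length := by omega
    exact ⟨h, by simp [d, h]⟩
  have hdmem : ∀ l < n, d l ∈ c2 := by
    intro l hl
    obtain ⟨h, e⟩ := hd l hl
    rw [e]
    exact List.getElem_mem h
  have hlamd : ∀ l < n, lam (d l) = Y l := by
    intro l hl
    obtain ⟨h, e⟩ := hd l hl
    rw [e]
    have h2 : (c2.map lam)[n - 1 - l]'(by simpa using h) = lam c2[n - 1 - l] := by simp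
    rw [← h2]
    simp only [hc2]
    simp
    congr 1
    omega
  have hc2eq : c2 = ((List.range n).reverse).map d := by
    apply List.ext_getElem
    · simp [hlen2]
    · intro t h2 h3
      simp only [List.getElem_map, List.getElem_reverse, List.length_range, List.getElem_range]
      have ht : t < n := by omega
      obtain ⟨h, e⟩ := hd (n - 1 - t) (by omega)
      rw [e]
      congr 1
      omega
  have hdinj : ∀ l < n, ∀ l' < n, d l = d l' → l = l' := by
    intro l hl l' hl' h
    apply hinj l hl l' hl'
    rw [← hlamd l hl, ← hlamd l' hl', h]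
  have hnd2 : c2.Nodup := by
    rw [hc2eq]
    apply List.Nodup.map_on
    · intro x hx y hy hxy
      simp only [List.mem_reverse, List.mem_range] at hx hy
      exact hdinj x hx y hy hxy
    · exact List.nodup_reverse.mpr List.nodup_range
  have hcount1 : ∀ l < n, c1.count (d l) = 1 := by
    intro l hl
    have h2 := hc.cnt (d l) (by simp [hdmem l hl])
    rw [List.count_append, List.count_eq_one_of_mem hnd2 (hdmem l hl)] at h2
    omega
  have hmem1 : ∀ l < n, d l ∈ c1 := by
    intro l hl
    rw [← List.count_pos_iff, hcount1 l hl]
    exact one_pos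
  -- positions
  let j : ℕ → ℕ := fun l => c1.idxOf (d l)
  have hj : ∀ l < n, ∃ h : j l < c1.length, c1[j l] = d l := by
    intro l hl
    have h : j l < c1.length := List.idxOf_lt_length_iff.mpr (hmem1 l hl)
    exact ⟨h, List.getElem_idxOf h⟩
  have hmono : ∀ l l', l < l' → l' < n → j l < j l' := by
    intro l l' hll hl'
    obtain ⟨h2, e2⟩ := hj l (by omega)
    obtain ⟨h3, e3⟩ := hj l' hl'
    rcases Nat.lt_trichotomy (j l) (j l') with h | h | h
    · exact h
    · exfalso
      have : d l = d l' := by
        rw [← e2, ← e3]
        congr 1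
      have := hdinj l (by omega) l' hl' this
      omega
    · exfalso
      have h4 := pair_sublist (l := c1) h h2
      rw [e2, e3] at h4
      obtain ⟨h5, e5⟩ := hd l (by omega)
      obtain ⟨h6, e6⟩ := hd l' hl'
      have h7 := pair_sublist (l := c2) (a := n - 1 - l') (b := n - 1 - l) (by omega) h5
      rw [← e5, ← e6] at h7
      have h8 := h4.append h7
      have h9 := hc.cross (d l') (d l) (fun h => by
        have := hdinj l' hl' l (by omega) h
        omega) h8
      rw [hlamd l' hl', hlamd l (by omega)] at h9
      exact hnadj l' hl' l (by omega) h9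
  refine ⟨j, ?_, hmono, ?_⟩
  · intro l hl
    obtain ⟨h2, e2⟩ := hj l hl
    rw [← hc1, List.getElem?_map, List.getElem?_eq_getElem h2, e2, Option.map_some, hlamd l hl]
  intro l0 l1 hl01 hl1 hu
  obtain ⟨hm0, em0⟩ := hj l0 (by omega)
  obtain ⟨hm1, em1⟩ := hj l1 hl1
  have hj01 := hmono l0 l1 hl01 hl1
  set pre := c1.take (j l0 + 1) with hpre
  set mid := c1.drop (j l0 + 1) with hmid
  let p : ℕ → Bool := fun t => decide (t ∈ pre)
  -- membership of the ids of the `Y l` in `pre`
  have hmempre : ∀ l < n, (d l ∈ pre ↔ l ≤ l0) := by
    intro l hl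
    obtain ⟨h2, e2⟩ := hj l hl
    constructor
    · intro h
      rw [hpre, List.mem_take_iff_getElem] at h
      obtain ⟨t, ht, et⟩ := h
      have h3 := index_unique (hcount1 l hl) (by omega) h2 et e2
      by_contra hcon
      push Not at hcon
      have h4 := hmono l0 l hcon hl
      omega
    · intro h
      rw [hpre, List.mem_take_iff_getElem]
      refine ⟨j l, ?_, e2⟩
      rcases Nat.lt_or_eq_of_le h with h3 | h3
      · have := hmono l l0 h3 (by omega)
        omega
      · rw [h3]; omega
  have hf1 : pre.filter p = pre := by
    rw [List.filter_eq_self]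
    intro t ht
    simp [p, ht]
  have hf2 : c2.filter p = ((List.range (l0 + 1)).reverse).map d := by
    rw [hc2eq, List.filter_map, List.filter_reverse]
    congr 1
    congr 1
    have e : n = (l0 + 1) + (n - (l0 + 1)) := by omega
    rw [e, List.range_add, List.filter_append]
    have h3 : (List.range (l0 + 1)).filter (p ∘ d) = List.range (l0 + 1) := by
      rw [List.filter_eq_self]
      intro t ht
      rw [List.mem_range] at ht
      simp only [p, Function.comp_apply, decide_eq_true_eq]
      exact (hmempre t (by omega)).mpr (by omega)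
    have h4 : ((List.range (n - (l0 + 1))).map (l0 + 1 + ·)).filter (p ∘ d) = [] := by
      rw [List.filter_eq_nil_iff]
      intro t ht
      obtain ⟨t', ht', rfl⟩ := List.mem_map.mp ht
      rw [List.mem_range] at ht'
      simp only [p, Function.comp_apply, decide_eq_true_eq]
      rw [hmempre _ (by omega)]
      omega
    rw [h3, h4, List.append_nil]
  -- no id of `pre` occurs after `j l1`
  have hf3 : (mid.drop (j l1 - j l0 - 1)).filter p = [] := by
    rw [List.filter_eq_nil_iff]
    intro t ht
    simp only [p, decide_eq_true_eq]
    intro htpre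
    rw [hmid, List.drop_drop, List.mem_drop_iff_getElem] at ht
    obtain ⟨s', hs', es'⟩ := ht
    rw [hpre, List.mem_take_iff_getElem] at htpre
    obtain ⟨s, hs, es⟩ := htpre
    set r := j l0 + 1 + (j l1 - j l0 - 1) + s' with hr
    have hrlen : r < c1.length := by omega
    have hslen : s < c1.length := by omega
    have hne : ∀ l < n, t ≠ d l := by
      intro l hl htl
      have h3 := index_unique (hcount1 l hl) hrlen hslen (es'.trans htl) (es.trans htl)
      omega
    have hs0 : s ≠ j l0 := by
      intro h
      apply hne l0 (by omega)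
      rw [← es, ← em0]
      congr 1
    have hr1 : r ≠ j l1 := by
      intro h
      apply hne l1 hl1
      rw [← es', ← em1]
      congr 1
    have htws : lam t ∈ ws := by
      rw [← hc1]
      exact List.mem_map_of_mem (es ▸ List.getElem_mem hslen)
    obtain ⟨l, hl0, hl1', hlA⟩ := hu (lam t) htws
    apply hlA
    have hln : l < n := by omega
    obtain ⟨hml, eml⟩ := hj l hln
    have h3 : j l0 ≤ j l := by
      rcases Nat.lt_or_eq_of_le hl0 with h | h
      · exact (hmono l0 l h hln).le
      · rw [h]
    have h4 : j l ≤ j l1 := by
      rcases Nat.lt_or_eq_of_le hl1' with h | h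
      · exact (hmono l l1 h hl1).le
      · rw [h]
    have h5 := triple_sublist (l := c1) (a := s) (b := j l) (c := r) (by omega) (by omega) hrlen
    rw [es, eml, es'] at h5
    have h6 : [d l] <+ c2 := List.singleton_sublist.mpr (hdmem l hln)
    have h7 := hc.cross t (d l) (hne l hln) (h5.append h6)
    rwa [hlamd l hln] at h7
  have hc1eq : pre ++ mid = c1 := List.take_append_drop _ _
  have hmideq : mid.take (j l1 - j l0 - 1) ++ mid.drop (j l1 - j l0 - 1) = mid :=
    List.take_append_drop _ _
  have hf4 : (c1 ++ c2).filter p = pre ++ (mid.take (j l1 - j l0 - 1)).filter p ++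
      ((List.range (l0 + 1)).reverse).map d := by
    rw [← hc1eq, List.filter_append, List.filter_append, hf1, hf2]
    nth_rewrite 1 [← hmideq]
    rw [List.filter_append, hf3, List.append_nil]
  have h10 := (hc.filter p).prod _ le_rfl
  rw [hf4] at h10
  refine ⟨((mid.take (j l1 - j l0 - 1)).filter p).map lam, ?_, ?_⟩
  · rw [← hc1, ← List.map_drop, ← List.map_take]
    exact filter_sublist.map lam
  · rw [List.map_append, List.map_append, List.prod_append, List.prod_append] at h10
    have e1 : ((ws.take (j l0 + 1)).map (Racg.lamp A)) =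
        pre.map (fun i => Racg.lamp A (lam i)) := by
      rw [← hc1, ← List.map_take, List.map_map]
      rfl
    have e2 : ((((mid.take (j l1 - j l0 - 1)).filter p).map lam).map (Racg.lamp A)) =
        ((mid.take (j l1 - j l0 - 1)).filter p).map (fun i => Racg.lamp A (lam i)) := by
      rw [List.map_map]
      rfl
    have e3 : ((((List.range (l0 + 1)).reverse).map d).map (fun i => Racg.lamp A (lam i))).prod =
        (((List.range (l0 + 1)).map (fun l => Racg.lamp A (Y l))).prod)⁻¹ := by
      have e4 : (((List.range (l0 + 1)).reverse).map d).map (fun i => Racg.lamp A (lam i)) =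
          (((List.range (l0 + 1)).map Y).reverse).map (Racg.lamp A) := by
        rw [← List.map_reverse, List.map_map, List.map_map]
        apply List.map_congr_left
        intro t ht
        rw [List.mem_reverse, List.mem_range] at ht
        simp only [Function.comp_apply]
        rw [hlamd t (by omega)]
      rw [e4, Racg.prod_reverse, List.map_map]
      rfl
    rw [e1, e2]
    rw [e3] at h10
    exact mul_inv_eq_one.mp h10

end Pool.Agent.H14.Morse
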